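import Mathlib

/-! Cayley identity `det(d) P^(j+1) = (j+1)...(j+n) P^j` for the generic determinant. -/

namespace Pool.Agent.P.MP_b91a16_ag.DC

open Matrix MvPolynomial Finset

section der
variable {R A : Type*} [CommRing R] [CommRing A] [Algebra R A]

theorem der_prod {ι : Type*} [DecidableEq ι] (D : Derivation R A A) (s : Finset ι) (f : ι → A) :
    D (∏ i ∈ s, f i) = ∑ i ∈ s, (∏ j ∈ s.erase i, f j) * D (f i) := by
  induction s using Finset.induction_on with
  | empty => simp
  | insert a s ha ih =>
    rw [Finset.prod_insert ha, Finset.sum_insert ha, Derivation.leibniz, ih, Finset.erase_insert ha,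
      smul_eq_mul, smul_eq_mul, Finset.mul_sum, add_comm]
    congr 1
    refine Finset.sum_congr rfl fun i hi => ?_
    have hne : a ≠ i := fun h => ha (h ▸ hi)
    rw [Finset.erase_insert_of_ne hne, Finset.prod_insert (fun h => ha (Finset.mem_of_mem_erase h))]
    ring

theorem der_det {ι : Type*} [DecidableEq ι] [Fintype ι] (D : Derivation R A A) (M : Matrix ι ι A) :
    D M.det = ∑ r, (M.updateRow r (fun c => D (M r c))).det := by
  rw [← det_transpose, det_apply', map_sum]
  simp_rw [← det_transpose (M.updateRow _ _), det_apply']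
  rw [Finset.sum_comm]
  refine Finset.sum_congr rfl fun σ _ => ?_
  rw [Derivation.leibniz, Derivation.map_intCast, smul_zero, add_zero, der_prod, smul_eq_mul,
    Finset.mul_sum]
  refine Finset.sum_congr rfl fun r _ => ?_
  congr 1
  rw [← Finset.prod_erase_mul _ _ (Finset.mem_univ r)]
  simp only [transpose_apply, updateRow_self]
  congr 1
  refine Finset.prod_congr rfl fun j hj => ?_
  rw [updateRow_ne (Finset.ne_of_mem_erase hj)]

/-- swap identity used in the induction -/
theorem laplace_swap {α β : Type*} (C : α → β → A) {k : ℕ} (a : Fin (k + 1) → α)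
    (b : Fin (k + 1) → β) (i : Fin k) :
    ∑ j : Fin (k + 1), (-1) ^ (j : ℕ) * C (a i.succ) (b j) *
      ((Matrix.of fun p q : Fin k => C (a p.succ) (b (j.succAbove q))).updateRow i
        (fun q => C (a 0) (b (j.succAbove q)))).det
      = - (Matrix.of fun p q => C (a p) (b q)).det := by
  have h := det_permute (Equiv.swap 0 i.succ) (Matrix.of fun p q => C (a p) (b q))
  rw [Equiv.Perm.sign_swap (Fin.succ_ne_zero i).symm, det_succ_row_zero] at h
  simp only [Units.val_neg, Units.val_one, Int.cast_neg, Int.cast_one, neg_mul, one_mul] at h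
  rw [← h]
  refine Finset.sum_congr rfl fun j _ => ?_
  have e : ((Matrix.of fun p q : Fin k => C (a p.succ) (b (j.succAbove q))).updateRow i
        (fun q => C (a 0) (b (j.succAbove q))))
      = ((Matrix.of fun p q => C (a p) (b q)).submatrix (Equiv.swap 0 i.succ) id).submatrix
          Fin.succ j.succAbove := by
    ext p q
    by_cases hp : p = i
    · subst hp; simp
    · rw [updateRow_ne hp]
      have : Equiv.swap 0 i.succ p.succ = p.succ :=
        Equiv.swap_apply_of_ne_of_ne (Fin.succ_ne_zero p) (fun h => hp (Fin.succ_injective _ h))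
      simp [this]
  rw [e]
  simp

/-- The determinant of commuting operators, by Laplace expansion along the first row. -/
noncomputable def Delta {α β : Type*} (d : α → β → Module.End R A) :
    (k : ℕ) → (Fin k → α) → (Fin k → β) → Module.End R A
  | 0, _, _ => 1
  | k + 1, a, b => ∑ j : Fin (k + 1), ((-1 : R) ^ (j : ℕ)) •
      (d (a 0) (b j) * Delta d k (fun p => a p.succ) (fun q => b (j.succAbove q)))

theorem cayley_abs {α β : Type*} (d : α → β → Derivation R A A) (P : A) (C : α → β → A)
    (h1 : ∀ i j, d i j P = C i j)
    (h2 : ∀ i j p q, P * d i j (C p q) = C i j * C p q - C i q * C p j) (s : ℕ) :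
    ∀ (k : ℕ) (a : Fin k → α) (b : Fin k → β),
      P ^ k * Delta (fun i j => (d i j : A →ₗ[R] A)) k a b (P ^ s)
        = (∏ t ∈ Finset.range k, ((s : A) + t)) * P ^ s * (Matrix.of fun p q => C (a p) (b q)).det := by
  have hpow : ∀ i j (m : ℕ), P * d i j (P ^ m) = m * C i j * P ^ m := by
    intro i j m
    induction m with
    | zero => simp
    | succ m ih =>
      rw [pow_succ, Derivation.leibniz, h1, smul_eq_mul, smul_eq_mul]
      push_cast
      linear_combination P * ih
  intro k
  induction k with
  | zero => intro a b; simp [Delta]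
  | succ k ih =>
    intro a b
    set β0 : A := ∏ t ∈ Finset.range k, ((s : A) + t) with hβ
    have hβ0 : ∀ i j, d i j β0 = 0 := by
      intro i j
      have : β0 = ((∏ t ∈ Finset.range k, (s + t) : ℕ) : A) := by rw [hβ]; push_cast; rfl
      rw [this, Derivation.map_natCast]
    have step : ∀ j : Fin (k + 1),
        P ^ (k + 1) * d (a 0) (b j) (Delta (fun i j => (d i j : A →ₗ[R] A)) k (fun p => a p.succ)
          (fun q => b (j.succAbove q)) (P ^ s))
        = β0 * P ^ s * (s * C (a 0) (b j) *
            (Matrix.of fun p q : Fin k => C (a p.succ) (b (j.succAbove q))).det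
          - ∑ i : Fin k, C (a i.succ) (b j) *
            ((Matrix.of fun p q : Fin k => C (a p.succ) (b (j.succAbove q))).updateRow i
              (fun q => C (a 0) (b (j.succAbove q)))).det) := by
      intro j
      have e := ih (fun p => a p.succ) (fun q => b (j.succAbove q))
      set F := Delta (fun i j => (d i j : A →ₗ[R] A)) k (fun p => a p.succ)
          (fun q => b (j.succAbove q)) (P ^ s) with hF
      set M := (Matrix.of fun p q : Fin k => C (a p.succ) (b (j.succAbove q))) with hM
      have e1 := congrArg (fun x => P * d (a 0) (b j) x) e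
      simp only [Derivation.leibniz, smul_eq_mul, hβ0, mul_zero, add_zero] at e1
      have hM' : P * d (a 0) (b j) M.det = k * C (a 0) (b j) * M.det
          - ∑ i : Fin k, C (a i.succ) (b j) *
            (M.updateRow i (fun q => C (a 0) (b (j.succAbove q)))).det := by
        rw [der_det, Finset.mul_sum]
        have : ∀ i : Fin k, P * (M.updateRow i (fun c => d (a 0) (b j) (M i c))).det
            = C (a 0) (b j) * M.det - C (a i.succ) (b j) *
              (M.updateRow i (fun q => C (a 0) (b (j.succAbove q)))).det := by
          intro i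
          rw [← det_updateRow_smul]
          have : (P • fun c => d (a 0) (b j) (M i c)) = C (a 0) (b j) • M i +
              (-C (a i.succ) (b j)) • (fun q => C (a 0) (b (j.succAbove q))) := by
            ext c
            simp only [Pi.smul_apply, smul_eq_mul, Pi.add_apply, hM, of_apply, h2]
            ring
          rw [this, det_updateRow_add, det_updateRow_smul, det_updateRow_smul, updateRow_eq_self]
          ring
        simp only [this, Finset.sum_sub_distrib, Finset.sum_const, Finset.card_univ,
          Fintype.card_fin, nsmul_eq_mul]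
        ring
      have p1 := hpow (a 0) (b j) k
      have p2 := hpow (a 0) (b j) s
      linear_combination e1 - F * p1 + β0 * M.det * p2 + β0 * P ^ s * hM'
        - k * C (a 0) (b j) * e
    rw [Delta, LinearMap.sum_apply, Finset.mul_sum, Finset.prod_range_succ, ← hβ]
    have t1 : ∀ j : Fin (k + 1), P ^ (k + 1) * ((((-1 : R) ^ (j : ℕ)) •
        ((d (a 0) (b j) : A →ₗ[R] A) * Delta (fun i j => (d i j : A →ₗ[R] A)) k (fun p => a p.succ)
          (fun q => b (j.succAbove q)))) (P ^ s))
        = β0 * P ^ s * (s * ((-1) ^ (j : ℕ) * C (a 0) (b j) *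
            (Matrix.of fun p q : Fin k => C (a p.succ) (b (j.succAbove q))).det)
          - ∑ i : Fin k, (-1) ^ (j : ℕ) * C (a i.succ) (b j) *
            ((Matrix.of fun p q : Fin k => C (a p.succ) (b (j.succAbove q))).updateRow i
              (fun q => C (a 0) (b (j.succAbove q)))).det) := by
      intro j
      rw [LinearMap.smul_apply, Module.End.mul_apply, Derivation.coeFn_coe, Algebra.smul_def,
        mul_left_comm, step j, map_pow, map_neg, map_one]
      simp only [mul_assoc ((-1 : A) ^ (j : ℕ)), ← Finset.mul_sum]
      ring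
    simp only [t1]
    rw [← Finset.mul_sum, Finset.sum_sub_distrib, Finset.sum_comm, ← Finset.mul_sum]
    simp only [laplace_swap C a b, Finset.sum_const, Finset.card_univ, Fintype.card_fin,
      nsmul_eq_mul]
    rw [det_succ_row_zero (Matrix.of fun p q => C (a p) (b q))]
    simp only [of_apply]
    have : ∀ j : Fin (k + 1), ((Matrix.of fun p q => C (a p) (b q)).submatrix Fin.succ j.succAbove)
        = Matrix.of fun p q : Fin k => C (a p.succ) (b (j.succAbove q)) := fun j => rfl
    simp only [this]
    ring

/-- Adjointness: if multiplication by `x i j` is adjoint to `d i j`, then multiplication by the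
minor is adjoint to `Delta`. -/
theorem pair_det {α β B : Type*} [AddCommGroup B] [Module R B] (d : α → β → Module.End R A)
    (x : α → β → A) (φ : A →ₗ[R] A →ₗ[R] B) (h : ∀ i j q p, φ q (x i j * p) = φ (d i j q) p) :
    ∀ (k : ℕ) (a : Fin k → α) (b : Fin k → β) (q p : A),
      φ q ((Matrix.of fun i j => x (a i) (b j)).det * p) = φ (Delta d k a b q) p := by
  intro k
  induction k with
  | zero => intro a b q p; simp [Delta]
  | succ k ih =>
    intro a b q p
    rw [det_succ_row_zero, Finset.sum_mul, map_sum, Delta, LinearMap.sum_apply, map_sum,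
      LinearMap.sum_apply]
    refine Finset.sum_congr rfl fun j _ => ?_
    have e : ((Matrix.of fun p q => x (a p) (b q)).submatrix Fin.succ j.succAbove)
        = Matrix.of fun p q : Fin k => x (a p.succ) (b (j.succAbove q)) := rfl
    rw [e, LinearMap.smul_apply, Module.End.mul_apply, map_smul, LinearMap.smul_apply, ← h,
      ← ih (fun p => a p.succ) (fun q => b (j.succAbove q)), ← map_smul]
    congr 1
    rw [Algebra.smul_def, map_pow, map_neg, map_one, of_apply]
    ring

end der

section gen
variable {R σ : Type*} [CommRing R] {n : ℕ}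

/-- generic matrix with variable names `v i j` -/
noncomputable def gen (R : Type*) [CommRing R] (v : Fin n → Fin n → σ) :
    Matrix (Fin n) (Fin n) (MvPolynomial σ R) := Matrix.of fun i j => X (v i j)

theorem pderiv_gen [DecidableEq σ] {v : Fin n → Fin n → σ}
    (hv : ∀ i j p q, v i j = v p q → i = p ∧ j = q) (i j p q : Fin n) :
    pderiv (v i j) (gen R v p q) = if p = i ∧ q = j then 1 else 0 := by
  rw [gen, of_apply, pderiv_X]
  by_cases h : p = i ∧ q = j
  · obtain ⟨rfl, rfl⟩ := h; simp
  · rw [if_neg h, Pi.single_eq_of_ne (fun e => h (hv _ _ _ _ e))]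

theorem pderiv_det {v : Fin n → Fin n → σ}
    (hv : ∀ i j p q, v i j = v p q → i = p ∧ j = q) (i j : Fin n) :
    pderiv (v i j) (gen R v).det = (gen R v).adjugate j i := by
  classical
  rw [der_det, Finset.sum_eq_single i, adjugate_apply]
  · congr 2
    ext1 c
    rw [pderiv_gen hv]
    by_cases h : c = j
    · subst h; simp
    · simp [h]
  · intro r _ hr
    refine det_eq_zero_of_row_eq_zero r fun c => ?_
    rw [updateRow_self, pderiv_gen hv, if_neg (fun h => hr h.1)]
  · simp

theorem pderiv_adj {v : Fin n → Fin n → σ}
    (hv : ∀ i j p q, v i j = v p q → i = p ∧ j = q) (i j p q : Fin n) :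
    (gen R v).det * pderiv (v i j) ((gen R v).adjugate q p)
      = (gen R v).adjugate j i * (gen R v).adjugate q p
        - (gen R v).adjugate q i * (gen R v).adjugate j p := by
  classical
  set M := gen R v with hM
  have h1 : ∀ c, ∑ r, M.adjugate q r * M r c = M.det * (if q = c then 1 else 0) := by
    intro c
    have := congrFun (congrFun (adjugate_mul M) q) c
    rw [mul_apply, Matrix.smul_apply, one_apply, smul_eq_mul] at this
    exact this
  have h2 : ∀ r, ∑ c, M r c * M.adjugate c p = M.det * (if r = p then 1 else 0) := by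
    intro r
    have := congrFun (congrFun (mul_adjugate M) r) p
    rw [mul_apply, Matrix.smul_apply, one_apply, smul_eq_mul] at this
    exact this
  have h3 : ∀ c, ∑ r, pderiv (v i j) (M.adjugate q r) * M r c
      = M.adjugate j i * (if q = c then 1 else 0) - M.adjugate q i * (if c = j then 1 else 0) := by
    intro c
    have := congrArg (pderiv (v i j)) (h1 c)
    rw [map_sum] at this
    simp only [Derivation.leibniz, smul_eq_mul] at this
    have e1 : pderiv (v i j) (if q = c then (1 : MvPolynomial σ R) else 0) = 0 := by
      split_ifs <;> simp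
    have e2 : ∑ r, M.adjugate q r * pderiv (v i j) (M r c)
        = M.adjugate q i * (if c = j then 1 else 0) := by
      rw [Finset.sum_eq_single i]
      · rw [hM, pderiv_gen hv]; simp
      · intro r _ hr
        rw [hM, pderiv_gen hv, if_neg (fun h => hr h.1), mul_zero]
      · simp
    rw [Finset.sum_add_distrib, e1, e2, hM, pderiv_det hv, ← hM] at this
    simp only [mul_comm (pderiv (v i j) _)]
    linear_combination this
  have h4 : ∑ c, (∑ r, pderiv (v i j) (M.adjugate q r) * M r c) * M.adjugate c p
      = M.det * pderiv (v i j) (M.adjugate q p) := by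
    simp only [Finset.sum_mul, mul_assoc]
    rw [Finset.sum_comm]
    simp only [← Finset.mul_sum, h2]
    rw [Finset.sum_eq_single p]
    · simp [mul_comm]
    · intro r _ hr; simp [hr]
    · simp
  rw [← h4]
  simp only [h3, sub_mul, Finset.sum_sub_distrib, mul_assoc, ← Finset.mul_sum]
  simp

theorem det_gen_ne_zero [Nontrivial R] {v : Fin n → Fin n → σ}
    (hv : ∀ i j p q, v i j = v p q → i = p ∧ j = q) : (gen R v).det ≠ 0 := by
  classical
  intro h
  have := congrArg (eval (fun s => if ∃ i, v i i = s then (1 : R) else 0)) h
  rw [RingHom.map_det, map_zero] at this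
  have e : (eval (fun s => if ∃ i, v i i = s then (1 : R) else 0)).mapMatrix (gen R v) = 1 := by
    ext i j
    rw [RingHom.mapMatrix_apply, map_apply, gen, of_apply, eval_X, one_apply]
    by_cases hij : i = j
    · subst hij; simp
    · rw [if_neg hij, if_neg]
      rintro ⟨l, hl⟩
      obtain ⟨h1, h2⟩ := hv _ _ _ _ hl
      exact hij (h1.symm.trans h2)
  rw [e, det_one] at this
  exact one_ne_zero this

/-- the operator `det (d / d x_(v i j))` -/
noncomputable def detD (R : Type*) [CommRing R] (v : Fin n → Fin n → σ) :
    Module.End R (MvPolynomial σ R) :=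
  Delta (fun i j => ((pderiv (v i j) : Derivation R _ _) : MvPolynomial σ R →ₗ[R] MvPolynomial σ R))
    n id id

/-- Cayley identity. -/
theorem cayley [IsDomain R] {v : Fin n → Fin n → σ}
    (hv : ∀ i j p q, v i j = v p q → i = p ∧ j = q) (j : ℕ) :
    detD R v ((gen R v).det ^ (j + 1))
      = ((∏ t ∈ Finset.range n, (j + 1 + t) : ℕ) : MvPolynomial σ R) * (gen R v).det ^ j := by
  have h := cayley_abs (fun i j => pderiv (v i j)) (gen R v).det
    (fun i j => (gen R v).adjugate j i) (pderiv_det hv) (pderiv_adj hv) (j + 1) n id id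
  have e : (Matrix.of fun p q => (gen R v).adjugate (id q) (id p)).det
      = (gen R v).det ^ (n - 1) := by
    rw [← det_transpose]
    have := det_adjugate (gen R v)
    rw [Fintype.card_fin] at this
    exact this
  rw [e] at h
  apply mul_left_cancel₀ (pow_ne_zero n (det_gen_ne_zero (R := R) hv))
  rw [detD, h]
  push_cast
  cases n with
  | zero => simp
  | succ m => rw [Nat.add_sub_cancel]; ring

/-- Cayley identity through any pairing for which `X s` is adjoint to `pderiv s`. -/
theorem cayley_pair [IsDomain R] {B : Type*} [AddCommGroup B] [Module R B]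
    {v : Fin n → Fin n → σ} (hv : ∀ i j p q, v i j = v p q → i = p ∧ j = q)
    (φ : MvPolynomial σ R →ₗ[R] MvPolynomial σ R →ₗ[R] B)
    (h : ∀ i j q p, φ q (X (v i j) * p) = φ (pderiv (v i j) q) p) (j : ℕ) (p : MvPolynomial σ R) :
    φ ((gen R v).det ^ (j + 1)) ((gen R v).det * p)
      = (∏ t ∈ Finset.range n, (j + 1 + t) : ℕ) • φ ((gen R v).det ^ j) p := by
  have := pair_det (fun i j => ((pderiv (v i j) : Derivation R _ _) :
    MvPolynomial σ R →ₗ[R] MvPolynomial σ R)) (fun i j => X (v i j)) φ h n id id
    ((gen R v).det ^ (j + 1)) p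
  have c := cayley (R := R) hv j
  rw [detD] at c
  rw [c, ← nsmul_eq_mul, map_nsmul, LinearMap.smul_apply] at this
  exact this

end gen

end Pool.Agent.P.MP_b91a16_ag.DC
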